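import Pool.Agent.Y271.RO.Stm

set_option autoImplicit false

/-! Job RO-CUTA: smooth cut-off functions give case B. -/

namespace Pool.Agent.Y927.RO.CUTA

open MeasureTheory Set Metric Filter Topology
open scoped InnerProductSpace ENNReal NNReal ComplexConjugate ContDiff
open Pool.Agent.Y271.RO

theorem db_eq_zero_of_const {F : ℂ → ℂ} {z c : ℂ} (h : F =ᶠ[𝓝 z] fun _ => c) : db F z = 0 := by
  unfold db
  rw [h.fderiv_eq]
  simp

theorem continuous_db {F : ℂ → ℂ} (h : ContDiff ℝ ∞ F) : Continuous (db F) := by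
  have h1 : Continuous (fderiv ℝ F) := h.continuous_fderiv (by simp)
  unfold db
  exact ((h1.clm_apply continuous_const).add
    (continuous_const.mul (h1.clm_apply continuous_const))).div_const 2

theorem integrable_fd {f : ℂ → ℂ} {a : ℂ} {r : ℝ} (h : IntegrableOn f (ball a r)) :
    Integrable (fd f a r) := by
  unfold fd
  rw [integrable_indicator_iff measurableSet_ball]
  exact h.norm

theorem fd_nonneg (f : ℂ → ℂ) (a : ℂ) (r : ℝ) (z : ℂ) : 0 ≤ fd f a r z := by
  unfold fd
  exact Set.indicator_nonneg (fun _ _ => norm_nonneg _) z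

/-- the functions `g n` -/
noncomputable def gg (f : ℂ → ℂ) (a : ℂ) (r η : ℝ) (D : ℂ → ℂ) (z : ℂ) : ℂ := by
  classical exact if z ∈ ball a r ∧ ‖D z‖ ≤ 2 / η * ‖f z‖ ∧ f z ≠ 0 then D z / f z else 0

theorem gg_meas {f : ℂ → ℂ} {a : ℂ} {r η : ℝ} {D : ℂ → ℂ} (hf : Measurable f) (hD : Measurable D) :
    Measurable (gg f a r η D) := by
  classical
  unfold gg
  refine Measurable.ite ?_ (hD.div hf) measurable_const
  refine measurableSet_ball.inter ?_
  refine (measurableSet_le hD.norm (hf.norm.const_mul _)).inter ?_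
  exact (hf (measurableSet_singleton (0 : ℂ))).compl

theorem gg_bd {f : ℂ → ℂ} {a : ℂ} {r η : ℝ} (hη : 0 < η) {D : ℂ → ℂ} (z : ℂ) :
    ‖gg f a r η D z‖ ≤ 2 / η := by
  classical
  unfold gg
  split_ifs with h
  · have h0 : 0 < ‖f z‖ := norm_pos_iff.mpr h.2.2
    rw [norm_div, div_le_iff₀ h0]
    exact h.2.1
  · rw [norm_zero]
    positivity

theorem gg_zero {f : ℂ → ℂ} {a : ℂ} {r η : ℝ} {D : ℂ → ℂ} {z : ℂ} (h : D z = 0) :
    gg f a r η D z = 0 := by
  classical
  unfold gg
  rw [h, zero_div, ite_self]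

theorem gg_off {f : ℂ → ℂ} {a : ℂ} {r η : ℝ} {D : ℂ → ℂ} {z : ℂ} (h : z ∉ ball a r) :
    gg f a r η D z = 0 := by
  classical
  unfold gg
  rw [if_neg (fun h' => h h'.1)]

/-- the pointwise estimate -/
theorem pointwise {f : ℂ → ℂ} {a : ℂ} {r η : ℝ} (hη : 0 < η) {D : ℂ → ℂ} {z : ℂ} {p e : ℝ}
    (hp : 0 ≤ p) (he : 0 ≤ e) (hD : ‖D z‖ ≤ 1 / η * (p + e)) (hz : z ∈ ball a r → f z ≠ 0) :
    ‖f z * gg f a r η D z - D z‖ ≤ 2 / η * (|p - fd f a r z| + e) := by
  classical
  have hη' : 0 < 1 / η := by positivity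
  have h2 : 2 / η = 2 * (1 / η) := by ring
  by_cases hb : z ∈ ball a r
  · have hf0 := hz hb
    have hfd : fd f a r z = ‖f z‖ := by
      unfold fd
      rw [Set.indicator_of_mem hb]
    by_cases hc : ‖D z‖ ≤ 2 / η * ‖f z‖
    · have hg : gg f a r η D z = D z / f z := by
        unfold gg
        rw [if_pos ⟨hb, hc, hf0⟩]
      rw [hg, mul_div_cancel₀ _ hf0, sub_self, norm_zero]
      positivity
    · have hg : gg f a r η D z = 0 := by
        unfold gg
        rw [if_neg (fun h' => hc h'.2.1)]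
      rw [hg, mul_zero, zero_sub, norm_neg, hfd]
      push Not at hc
      have h3 := le_abs_self (p - ‖f z‖)
      have h4 : 1 / η * (p - ‖f z‖) ≤ 1 / η * |p - ‖f z‖| := mul_le_mul_of_nonneg_left h3 hη'.le
      rw [h2] at hc ⊢
      nlinarith
  · have hfd : fd f a r z = 0 := by
      unfold fd
      rw [Set.indicator_of_notMem hb]
    rw [gg_off hb, mul_zero, zero_sub, norm_neg, hfd, sub_zero, abs_of_nonneg hp, h2]
    have h5 : 0 ≤ 1 / η * (p + e) := by positivity
    linarith

theorem main : S_CUTA := by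
  classical
  intro hPCA f a τ r η k hτ hτr hη hf hfi hf0 Θ hΘ hΘ1 hΘ0 hΘd
  have hr : 0 < r := hτ.trans hτr
  obtain ⟨hpos, hlim⟩ := hPCA (fd f a r) (integrable_fd hfi) (fd_nonneg f a r)
  have hdc : ∀ n, Continuous (db (Θ n)) := fun n => continuous_db (hΘ n)
  have hin : ∀ n, ∀ z ∈ ball a τ, db (Θ n) z = 0 := by
    intro n z hz
    apply db_eq_zero_of_const (c := 1)
    filter_upwards [isOpen_ball.mem_nhds hz] with w hw
    exact hΘ1 n w hw
  have hout : ∀ n z, 2 * r < ‖z - a‖ → db (Θ n) z = 0 := by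
    intro n z hz
    apply db_eq_zero_of_const (c := 0)
    have ho : IsOpen {w : ℂ | 2 * r < ‖w - a‖} :=
      isOpen_lt continuous_const (continuous_id.sub continuous_const).norm
    filter_upwards [ho.mem_nhds hz] with w hw
    exact hΘ0 n w (le_of_lt hw)
  refine ⟨Θ, fun n => gg f a r η (db (Θ n)), 2 / η, hΘ, hΘ1, hΘ0, ?_, ?_, ?_, ?_, ?_⟩
  · intro n
    exact gg_meas hf (hdc n).measurable
  · intro n z
    exact gg_bd hη z
  · intro n z hz
    exact gg_zero (hin n z hz)
  · intro n z hz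
    apply gg_off
    rw [mem_ball, dist_eq_norm]
    linarith
  · -- the limit
    set P : ℕ → ℂ → ℝ := fun n => pw (fd f a r) (1 / ((n + k : ℕ) + 1)) with hP
    have hlim2 : Tendsto (fun n : ℕ => ∫⁻ z, ‖P n z - fd f a r z‖ₑ) atTop (𝓝 0) := by
      have h1 := (tendsto_add_atTop_iff_nat k).mpr hlim
      exact h1
    have hB : volume (closedBall a (2 * r)) ≠ ⊤ := measure_closedBall_lt_top.ne
    have hkey : ∀ n : ℕ, ∫⁻ z, ‖f z * gg f a r η (db (Θ n)) z - db (Θ n) z‖ₑ ≤
        ENNReal.ofReal (2 / η) * ((∫⁻ z, ‖P n z - fd f a r z‖ₑ) +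
          ENNReal.ofReal (1 / ((n : ℝ) + 1)) * volume (closedBall a (2 * r))) := by
      intro n
      have hPn : ∀ w, 0 ≤ P n w := (hpos (1 / ((n + k : ℕ) + 1)) (by positivity)).2
      have hPc : Continuous (P n) := (hpos (1 / ((n + k : ℕ) + 1)) (by positivity)).1
      have hfdm : Measurable (fd f a r) := by
        unfold fd
        exact hf.norm.indicator measurableSet_ball
      have h1 : ∀ᵐ z : ℂ, ‖f z * gg f a r η (db (Θ n)) z - db (Θ n) z‖ₑ ≤
          ENNReal.ofReal (2 / η) * (‖P n z - fd f a r z‖ₑ +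
            (closedBall a (2 * r)).indicator (fun _ => ENNReal.ofReal (1 / ((n : ℝ) + 1))) z) := by
        have h2 := (ae_restrict_iff' (measurableSet_ball (x := a) (ε := r))).mp hf0
        filter_upwards [h2] with z hz
        by_cases hc : z ∈ closedBall a (2 * r)
        · rw [Set.indicator_of_mem hc]
          have h3 := pointwise (f := f) (a := a) (r := r) hη (D := db (Θ n)) (z := z)
            (p := P n z) (e := 1 / ((n : ℝ) + 1)) (hPn z) (by positivity) (hΘd n z) hz
          rw [← ofReal_norm, ← ofReal_norm, Real.norm_eq_abs,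
            ← ENNReal.ofReal_add (abs_nonneg _) (by positivity),
            ← ENNReal.ofReal_mul (by positivity)]
          exact ENNReal.ofReal_le_ofReal h3
        · have h4 : 2 * r < ‖z - a‖ := by
            rw [mem_closedBall, dist_eq_norm, not_le] at hc
            exact hc
          have h5 : z ∉ ball a r := by
            rw [mem_ball, dist_eq_norm]
            linarith
          rw [hout n z h4, gg_off h5, mul_zero, sub_zero]
          simp
      calc ∫⁻ z, ‖f z * gg f a r η (db (Θ n)) z - db (Θ n) z‖ₑ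
          ≤ ∫⁻ z, ENNReal.ofReal (2 / η) * (‖P n z - fd f a r z‖ₑ +
            (closedBall a (2 * r)).indicator (fun _ => ENNReal.ofReal (1 / ((n : ℝ) + 1))) z) :=
            lintegral_mono_ae h1
        _ = ENNReal.ofReal (2 / η) * ∫⁻ z, (‖P n z - fd f a r z‖ₑ +
            (closedBall a (2 * r)).indicator (fun _ => ENNReal.ofReal (1 / ((n : ℝ) + 1))) z) := by
            rw [lintegral_const_mul' _ _ ENNReal.ofReal_ne_top]
        _ = ENNReal.ofReal (2 / η) * ((∫⁻ z, ‖P n z - fd f a r z‖ₑ) +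
          ENNReal.ofReal (1 / ((n : ℝ) + 1)) * volume (closedBall a (2 * r))) := by
            have hm : Measurable fun z : ℂ => ‖P n z - fd f a r z‖ₑ :=
              (hPc.measurable.sub hfdm).enorm
            rw [lintegral_add_left hm,
              lintegral_indicator measurableSet_closedBall, lintegral_const,
              Measure.restrict_apply_univ]
    refine tendsto_of_tendsto_of_tendsto_of_le_of_le tendsto_const_nhds ?_ (fun n => zero_le)
      hkey
    have h6 : Tendsto (fun n : ℕ => ENNReal.ofReal (1 / ((n : ℝ) + 1))) atTop (𝓝 0) := by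
      have h7 := ENNReal.tendsto_ofReal tendsto_one_div_add_atTop_nhds_zero_nat
      rwa [ENNReal.ofReal_zero] at h7
    have h8 : Tendsto (fun n : ℕ => ENNReal.ofReal (1 / ((n : ℝ) + 1)) *
        volume (closedBall a (2 * r))) atTop (𝓝 0) := by
      have h9 := ENNReal.Tendsto.mul_const h6 (Or.inr hB)
      rwa [zero_mul] at h9
    have h10 := hlim2.add h8
    rw [add_zero] at h10
    have h11 := ENNReal.Tendsto.const_mul h10 (Or.inr (ENNReal.ofReal_ne_top (r := 2 / η)))
    rwa [mul_zero] at h11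

end Pool.Agent.Y927.RO.CUTA
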